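import Pool.Graph.R_pool_sql_team_39128cda.H.MP_ac3292_al.A

set_option autoImplicit false

namespace Pool.Agent.KS6_43.DA

open Set Topology Filter Metric Function

/-- the covering dimension of `A` is at most `k`: every finite cover of `A` by open sets has a
finite refinement by open sets that covers `A` and has order at most `k + 1` at each point of `A` -/
def CovDimLE {X : Type} [TopologicalSpace X] (A : Set X) (k : ℕ) : Prop :=
  ∀ 𝒰 : Finset (Set X), (∀ U ∈ 𝒰, IsOpen U) → A ⊆ ⋃₀ (↑𝒰 : Set (Set X)) →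
    ∃ 𝒱 : Finset (Set X), (∀ V ∈ 𝒱, IsOpen V ∧ ∃ U ∈ 𝒰, V ∩ A ⊆ U) ∧
      A ⊆ ⋃₀ (↑𝒱 : Set (Set X)) ∧ ∀ z ∈ A, {V | V ∈ 𝒱 ∧ z ∈ V}.ncard ≤ k + 1

/-- the `n + 1` functionals -/
def af {n : ℕ} (i : Option (Fin n)) (w : Fin n → ℝ) : ℝ := i.elim (-∑ j, w j) w

lemma af_cont {n : ℕ} (i : Option (Fin n)) : Continuous (af i) := by
  cases i with
  | none => exact (continuous_finsetSum _ fun j _ => continuous_apply j).neg
  | some j => exact continuous_apply j

lemma af_zero {n : ℕ} {w : Fin n → ℝ} (h : ∀ i, ¬ 0 < af i w) : w = 0 := by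
  have h1 : ∀ j, w j ≤ 0 := fun j => not_lt.1 (h (some j))
  have h2 : -∑ j, w j ≤ 0 := not_lt.1 (h none)
  have h3 : ∑ j, w j ≤ 0 := Finset.sum_nonpos fun j _ => h1 j
  have h4 : ∑ j, w j = 0 := le_antisymm h3 (by linarith)
  funext j
  exact (Finset.sum_eq_zero_iff_of_nonpos fun j _ => h1 j).1 h4 j (Finset.mem_univ j)

theorem low {X : Type} [TopologicalSpace X] {n : ℕ} (hn : 0 < n) {C : Set X}
    {j : (Fin n → ℝ) → X} {π : X → Fin n → ℝ}
    (jc : Continuous j) (pc : Continuous π) (e : ∀ w, π (j w) = w) (h : ∀ w, ‖w‖ ≤ 1 → j w ∈ C) :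
    ¬ CovDimLE C (n - 1) := by
  intro H
  classical
  obtain ⟨𝒱, v1, v2, v3⟩ := H (Finset.univ.image fun i => π ⁻¹' ({w | 0 < af i w} ∪ {w | ‖w‖ < 1 / 2}))
    (Finset.forall_mem_image.2 fun i _ => ((isOpen_lt continuous_const (af_cont i)).union
        (isOpen_lt continuous_norm continuous_const)).preimage pc) fun x _ => by
    simp only [Finset.coe_image, sUnion_image, Finset.coe_univ, mem_univ, iUnion_true, mem_iUnion]
    by_contra! k
    have u := fun i => not_or.1 (k i)
    exact (u none).2 (by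
      have : π x = 0 := af_zero fun i => (u i).1
      simp [this])
  simp only [Finset.mem_image, Finset.mem_univ, true_and, exists_exists_eq_and] at v1
  choose! o i hi using v1
  choose f f1 f2 f3 using fun m : Option (Fin n) => ((isOpen_biUnion (s := {V ∈ 𝒱 | i V = m})
    fun V k => o V k.1).preimage jc).exists_contDiff_support_eq (n := 0)
  have fc := fun m => (f2 m).continuous
  have f0 := fun m w => (f3 m (mem_range_self w)).1
  have k : ∀ m w, f m w ≠ 0 ↔ ∃ V ∈ 𝒱, i V = m ∧ j w ∈ V := fun m w => by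
    simp [← mem_support, f1, and_assoc]
  obtain ⟨w, z⟩ := Pool.Agent.H.MP_ac3292_al.noretr (fun w : Fin n → ℝ =>
    (1 - min 1 (max 0 (2 * ‖w‖ - 1))) • (fun l => f (some l) w - f none w) +
      min 1 (max 0 (2 * ‖w‖ - 1)) • w) (by fun_prop) fun w k => by norm_num [k]
  rcases le_total 1 ‖w‖ with b | b
  · rw [min_eq_left (le_max_of_le_right (by linarith))] at z
    norm_num [show w = 0 by simpa using z] at b
  rcases le_or_gt ‖w‖ (1 / 2) with c | c
  · rw [max_eq_left (by linarith), min_eq_right zero_le_one] at z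
    simp only [sub_zero, one_smul, zero_smul, add_zero] at z
    obtain ⟨V, x, y⟩ := v2 (h w b)
    have : ∀ m, f m w = f none w := fun m => by
      cases m with
      | none => rfl
      | some l => exact sub_eq_zero.1 (congrFun z l)
    choose W w1 w2 w3 using fun m => (k m w).1
      (((this m).trans (this (i V)).symm).trans_ne ((k _ w).2 ⟨V, x, rfl, y⟩))
    have := (ncard_le_ncard_of_injOn W (s := univ) (t := {V | V ∈ 𝒱 ∧ j w ∈ V})
      (fun m _ => ⟨w1 m, w3 m⟩)
      (fun m _ l _ e => by rw [← w2 m, e, w2]) (𝒱.finite_toSet.subset fun _ => And.left)).trans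
      (v3 _ (h w b))
    simp only [ncard_univ, Nat.card_eq_fintype_card, Fintype.card_option, Fintype.card_fin] at this
    omega
  · rw [max_eq_right (by linarith), min_eq_right (by linarith)] at z
    have p : ∀ m, 0 ≤ f m w * af m w := fun m => by
      by_cases d : f m w = 0
      · simp [d]
      obtain ⟨V, x, rfl, y⟩ := (k m w).1 d
      have := hi V x ⟨y, h w b⟩
      rw [mem_preimage, e] at this
      exact mul_nonneg (f0 _ _) (this.resolve_right c.not_gt).le
    have w0 : 0 < ∑ l, w l * w l := by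
      have h1 : 0 ≤ ∑ l, w l * w l := Finset.sum_nonneg fun l _ => mul_self_nonneg _
      refine lt_of_le_of_ne h1 fun h2 => ?_
      have h3 : w = 0 := funext fun l => by
        have := (Finset.sum_eq_zero_iff_of_nonneg fun l _ => mul_self_nonneg (w l)).1 h2.symm l
          (Finset.mem_univ l)
        exact mul_self_eq_zero.1 this
      norm_num [h3] at c
    have hz : ∀ l, (1 - (2 * ‖w‖ - 1)) * (f (some l) w - f none w) + (2 * ‖w‖ - 1) * w l = 0 :=
      fun l => congrFun z l
    have h4 : ∑ l, ((1 - (2 * ‖w‖ - 1)) * (f (some l) w - f none w) + (2 * ‖w‖ - 1) * w l) * w l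
        = (1 - (2 * ‖w‖ - 1)) * ∑ m, f m w * af m w + (2 * ‖w‖ - 1) * ∑ l, w l * w l := by
      simp only [Fintype.sum_option, af, Option.elim, add_mul, sub_mul, Finset.sum_add_distrib,
        Finset.mul_sum, mul_add, mul_neg, Finset.sum_sub_distrib, mul_assoc, mul_sub]
      ring
    simp only [hz, zero_mul, Finset.sum_const_zero] at h4
    have h5 : 0 ≤ ∑ m, f m w * af m w := Finset.sum_nonneg fun m _ => p m
    have h6 : 0 < (2 * ‖w‖ - 1) * ∑ l, w l * w l := mul_pos (by linarith) w0
    have h7 : 0 ≤ (1 - (2 * ‖w‖ - 1)) * ∑ m, f m w * af m w := mul_nonneg (by linarith) h5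
    linarith

end Pool.Agent.KS6_43.DA
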