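import Pool.Graph.R_pool_sql_team_39128cda.H.MP_da03b0_gt.A

set_option autoImplicit false

namespace Pool.Agent.KS6_43.DA

open Set Topology Filter Metric Function

/-- zero-dimensionality of sets that embed in a power of the irrationals -/
theorem zd {X ι : Type} [Finite ι] [MetricSpace X] [SecondCountableTopology X] {Z : Set X}
    {T : Z → ι → ℝ} (t : IsInducing T) (h : ∀ y i, Irrational (T y i)) (𝒰 : Set (Set X))
    (o : ∀ U ∈ 𝒰, IsOpen U) (c : Z ⊆ ⋃₀ 𝒰) : ∃ V : Set X → Set X, (∀ U ∈ 𝒰, IsOpen (V U)) ∧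
      (∀ U, V U ⊆ U) ∧ (∀ z ∈ Z, ∃ U ∈ 𝒰, z ∈ V U) ∧ ∀ z U W, z ∈ V U → z ∈ V W → U = W := by
  have := Fintype.ofFinite ι
  rcases isEmpty_or_nonempty Z with n | n
  · exact ⟨fun _ => ∅, by simp, by simp, fun z k => n.elim ⟨z, k⟩, by simp⟩
  have : ∀ y : Z, ∃ B, IsClopen B ∧ y ∈ B ∧ ∃ U ∈ 𝒰, ∀ x ∈ B, x.1 ∈ U := fun y => by
    obtain ⟨U, u, v⟩ := c y.2
    obtain ⟨N, a, b⟩ := mem_comap.1 (t.nhds_eq_comap y ▸ continuous_subtype_val.continuousAt
      ((o U u).mem_nhds v))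
    obtain ⟨ε, e, d⟩ := Metric.mem_nhds_iff.1 a
    choose p p1 p2 using fun i => exists_rat_btwn (sub_lt_self (T y i) e)
    choose q q1 q2 using fun i => exists_rat_btwn (lt_add_of_pos_right (T y i) e)
    refine ⟨T ⁻¹' pi univ fun i => Ioo (p i) (q i), ⟨?_, (isOpen_set_pi finite_univ
      fun _ _ => isOpen_Ioo).preimage t.continuous⟩, fun i _ => ⟨p2 i, q1 i⟩, U, u,
      fun x k => b (d ((dist_pi_lt_iff e).2 fun i => abs_lt.2
        ⟨by linarith [(k i trivial).1, p1 i], by linarith [(k i trivial).2, q2 i]⟩))⟩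
    convert (isClosed_set_pi (i := univ) fun i _ => isClosed_Icc (a := (p i : ℝ))
      (b := q i)).preimage t.continuous using 1
    exact subset_antisymm (fun x k i u => Ioo_subset_Icc_self (k i u)) fun x k i u =>
      ⟨(k i u).1.lt_of_ne ((h x i).ne_rat _).symm, (k i u).2.lt_of_ne ((h x i).ne_rat _)⟩
  choose B b1 b2 U b3 b4 using this
  obtain ⟨s, s1, s2⟩ := TopologicalSpace.countable_cover_nhds fun y => (b1 y).2.mem_nhds (b2 y)
  obtain ⟨e, s3⟩ := countable_iff_exists_subset_range.1 s1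
  have k : ∀ y, ∃ n, y ∈ B (e n) := fun y => by
    obtain ⟨x, u, v⟩ := mem_iUnion₂.1 (s2.ge (mem_univ y))
    obtain ⟨n, rfl⟩ := s3 u
    exact ⟨n, v⟩
  classical
  have l : IsLocallyConstant fun y => U (e (Nat.find (k y))) :=
    (IsLocallyConstant.iff_eventually_eq _).2 fun y => by
      filter_upwards [(b1 _).2.mem_nhds (Nat.find_spec (k y)), (biInter_mem (finite_Iio _)).2
        fun m (a : m < Nat.find (k y)) => (b1 _).1.isOpen_compl.mem_nhds (Nat.find_min (k y) a)]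
        with x a b
      rw [(Nat.find_eq_iff (k x)).2 ⟨a, mem_iInter₂.1 b⟩]
  refine ⟨fun W => W ∩ {x | infEDist x (Subtype.val '' {y | U (e (Nat.find (k y))) = W}) <
    infEDist x (Subtype.val '' {y | U (e (Nat.find (k y))) = W}ᶜ)}, fun W a => (o W a).inter
      (isOpen_lt continuous_infEDist continuous_infEDist), fun _ => inter_subset_left,
    fun z a => ⟨_, b3 _, b4 _ ⟨z, a⟩ (Nat.find_spec (k _)), ?_⟩, fun z V W a b => by_contra fun d =>
      (a.2.trans_le (infEDist_anti (image_mono fun y u v => d (Eq.trans (Eq.symm v) u)))).not_gt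
        (b.2.trans_le (infEDist_anti (image_mono fun y u v => d (Eq.trans (Eq.symm u) v))))⟩
  rw [mem_ofPred, infEDist_zero_of_mem (by exact ⟨⟨z, a⟩, rfl, rfl⟩), infEDist_pos_iff_notMem_closure]
  exact fun d => (l.isOpen_fiber _).isClosed_compl.closure_subset
    (closure_subtype (x := ⟨z, a⟩).2 d) rfl

theorem peano (m : ℕ) : ∃ ψ : ℝ → Fin m → ℝ, Continuous ψ ∧ (∃ M, ∀ t, ‖ψ t‖ ≤ M) ∧
    ∀ w, ‖w‖ ≤ 1 → ∃ t, ∀ n : ℕ, ψ (t + n * (2 * Real.pi)) = w := by
  have := isCompact_iff_compactSpace.1 (isCompact_closedBall (0 : Fin m → ℝ) 1)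
  have : Nonempty (closedBall (0 : Fin m → ℝ) 1) := ⟨⟨0, by simp⟩⟩
  obtain ⟨g, g1, g2⟩ := exists_nat_bool_continuous_surjective_of_compact
    (closedBall (0 : Fin m → ℝ) 1)
  obtain ⟨P, h⟩ := ContinuousMap.exists_restrict_eq isClosed_cantorSet
    ⟨_, continuous_subtype_val.comp (g1.comp cantorSetHomeomorphNatToBool.continuous)⟩
  obtain ⟨M, m⟩ := (isCompact_Icc (a := -1) (b := 1)).exists_bound_of_continuousOn
    P.continuous.continuousOn
  refine ⟨fun t => P (Real.sin t), by fun_prop, ⟨M, fun t => m _ (Real.sin_mem_Icc t)⟩, fun w k => ?_⟩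
  obtain ⟨c, e⟩ := (g2.comp cantorSetHomeomorphNatToBool.surjective) ⟨w, by simpa using k⟩
  have := cantorSet_subset_unitInterval c.2
  refine ⟨Real.arcsin c, fun n => ?_⟩
  simp only
  rw [Real.sin_add_nat_mul_two_pi, Real.sin_arcsin (by linarith [this.1]) this.2]
  exact (DFunLike.congr_fun h c).trans (congrArg Subtype.val e)

theorem osc (m : ℕ) : ∃ φ : ℝ → Fin m → ℝ, ContinuousOn φ {z | Irrational z} ∧
    ∀ (q : ℚ) (E : Set ℝ),
    (∀ z ∈ E, Irrational z) → closure E ∈ 𝓝 (q : ℝ) → ∃ c, ∃ r : ℝ, 0 < r ∧ ∀ w, ‖w‖ ≤ 1 →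
      ∃ F, NeBot F ∧ F ≤ 𝓝[E] (q : ℝ) ∧ Tendsto φ F (𝓝 (c + r • w)) := by
  obtain ⟨ψ, c, ⟨M, m⟩, k⟩ := peano m
  let f : ℚ → ℝ → _ → ℝ := fun q z => (1 / 2 : ℝ) ^ Encodable.encode q • ψ (z - q)⁻¹
  have s := (summable_geometric_two_encode (ι := ℚ)).mul_right M
  have b : ∀ q z, ‖f q z‖ ≤ (1 / 2) ^ Encodable.encode q * M := fun q z => by
    rw [norm_smul, Real.norm_of_nonneg (by positivity)]
    gcongr
    exact m _
  have g : ∀ q : ℚ, ContinuousOn (fun z : ℝ => ψ (z - q)⁻¹) {(q : ℝ)}ᶜ := fun q =>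
    c.comp_continuousOn (.inv₀ (by fun_prop) fun z h => sub_ne_zero.2 h)
  refine ⟨fun z => ∑' q, f q z, continuousOn_tsum (fun q => ((g q).mono (t := {z | Irrational z})
    fun z h => Irrational.ne_rat h q).fun_const_smul _) s fun q z _ => b q z, fun q E i e => ?_⟩
  have h := continuousOn_tsum (f := fun p z => if p = q then 0 else f p z) (s := insert ↑q E)
    (fun p => by
      split_ifs with a
      exacts [continuousOn_const, ((g p).mono (insert_subset (fun h => a (Rat.cast_injective h).symm)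
        fun z h => (i z h).ne_rat p)).fun_const_smul _]) s fun p z _ => by
      split_ifs
      exacts [by simpa using (norm_nonneg _).trans (b p z), b p z]
  refine ⟨_, _, pow_pos one_half_pos (Encodable.encode q), fun w hw => ⟨𝓝[E] q ⊓
    comap (fun z : ℝ => ψ (z - q)⁻¹) (𝓝 w), ?_, inf_le_left,
    (((h q (.inl rfl)).mono (subset_insert _ _)).tendsto.mono_left inf_le_left |>.add
      ((tendsto_comap.mono_left inf_le_right).const_smul _)).congr fun z => by
        rw [(Summable.of_norm_bounded s (b · z)).tsum_eq_add_tsum_ite q, add_comm]⟩⟩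
  obtain ⟨t, k⟩ := k w hw
  refine ((nhdsWithin_basis_open _ _).inf ((nhds_basis_opens w).comap _)).neBot_iff.2
    fun {U} ⟨⟨u, o⟩, v, p⟩ => ?_
  have l : Tendsto (fun n : ℕ => t + n * (2 * Real.pi)) atTop atTop :=
    tendsto_atTop_add_const_left _ _ (tendsto_natCast_atTop_atTop.atTop_mul_const Real.two_pi_pos)
  obtain ⟨n, x, y⟩ := ((l.eventually_gt_atTop 0).and (((tendsto_const_nhds (x := (q : ℝ))).add
    l.inv_tendsto_atTop).eventually_mem (s := U.1 ∩ closure E) (by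
      simpa using ⟨o.mem_nhds u, e⟩))).exists
  obtain ⟨z, a, d⟩ := mem_closure_iff.1 y.2 _ (o.inter ((g q).isOpen_inter_preimage
    isOpen_compl_singleton p)) ⟨y.1, by simpa using x.ne', by simpa [k] using v⟩
  exact ⟨z, ⟨a.1, d⟩, a.2.2⟩

end Pool.Agent.KS6_43.DA
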